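import Pool.Agent.H60.W.RunR
import Pool.Agent.H72.W.NRef

set_option autoImplicit false
open Finset

/-! # The number of frozen tiles of a window with a flat right wall

`OffR D p x y` : the tile is not in the column `x + sh p = w`, `0 ≤ y < h`, to the right of the window.
`frz_cover` : every frozen tile off this column is within `4` of an end of a segment or it is one of six
corner tiles of a level. `card_FRo` : there are at most `54 |G|` of them (`FRo` : their labels). `FRo_ref` :
they are the same for the reference window `refD D p`, whose other frozen tiles are the column (`FR_ref`). -/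

namespace Pool.Agent.H23.W

open Pool.Agent.H75.Perc Pool.Agent.H75.TwoArm Pool.Agent.Q1 Pool.Agent.H33.Q1
open Pool.Agent.H69.Q1
open Pool.Agent.H54.W (Win)
open Pool.Agent.H54.W.N (FlatBox)
open Pool.Agent.H54.Sp (hS Sq)
open Pool.Agent.H46.Sp (nxt)
open Pool.Agent.H72.W.N
open Pool.Agent.H60.W.N
open Pool.Agent.H42.Sp (Sd)

variable {D : Win} {p : Bool} {G : Finset ℤ} {g n x y t s0 : ℤ}

/-- the tile is off the column to the right of the window -/
def OffR (D : Win) (p : Bool) (x y : ℤ) : Prop := x + sh p < D.w ∨ y < 0 ∨ D.h ≤ y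

/-- the frozen labels off the column to the right of the window -/
noncomputable def FRo (D : Win) (p : Bool) : Finset (ℤ × ℤ) := TB D fun x y => FRt D p x y ∧ OffR D p x y

/-- corner tiles of a level -/
def cPt (D : Win) (p : Bool) (e : Fin 6) (g : ℤ) : ℤ × ℤ :=
  match e with
  | 0 => (D.a g - 1 - sh p, g - 1)
  | 1 => (D.a (g - 1) - 1 - sh p, g)
  | 2 => (D.w - sh p, -1)
  | 3 => (D.w - sh p, D.h)
  | 4 => (D.a g - 1 - sh p, g)
  | 5 => (D.a (g - 1) - 1 - sh p, g - 1)

/-- layer tiles of a segment -/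
def lPt (D : Win) (p : Bool) (i : Fin 6) (g t : ℤ) : ℤ × ℤ :=
  match sK i with
  | .L => ((pt D p i g t).1 - 1, (pt D p i g t).2)
  | .R => ((pt D p i g t).1, (pt D p i g t).2)
  | .F => ((pt D p i g t).1, (pt D p i g t).2 - 1)
  | .C => ((pt D p i g t).1, (pt D p i g t).2)

/-- ring tiles off the column are layer tiles or corner tiles -/
theorem ring_cover (hG : Lev D G) (h : Pool.Agent.H72.W.N.Ring D p x y) (ho : OffR D p x y) :
    (∃ s, s ≠ Sd.R ∧ LyA D p s x y) ∨ ∃ e : Fin 6, ∃ g ∈ G, (x, y) = cPt D p e g := by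
  obtain ⟨⟨Z, h1, h2, h3, h4, h5, h6⟩, hP⟩ := h
  have hh := D.hh
  have hs := sh_nonneg p
  have hs1 := sh_le p
  unfold OffR at ho
  by_cases c0 : y < 0
  · have e1 : Z = 0 := by omega
    have e2 : y = -1 := by omega
    subst e1 e2
    by_cases d1 : x + sh p < D.a 0
    · refine Or.inr ⟨0, 0, hG.zero, ?_⟩
      unfold cPt; simp only [Prod.mk.injEq]; omega
    by_cases d2 : x + sh p < D.w
    · refine Or.inl ⟨.F, by simp, ?_⟩
      exact ⟨le_rfl, by omega, by rw [show (-1 : ℤ) + 1 = 0 by norm_num]; omega, by omega,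
        fun h => by omega⟩
    · refine Or.inr ⟨2, 0, hG.zero, ?_⟩
      unfold cPt; simp only [Prod.mk.injEq, and_true]; omega
  by_cases c1 : D.h ≤ y
  · have e1 : Z = D.h - 1 := by omega
    have e2 : y = D.h := by omega
    subst e1 e2
    by_cases d1 : x + sh p < D.a (D.h - 1)
    · refine Or.inr ⟨1, D.h, hG.h, ?_⟩
      unfold cPt; simp only [Prod.mk.injEq, and_true]; omega
    by_cases d2 : x + sh p < D.w
    · refine Or.inl ⟨.C, by simp, ?_⟩
      exact ⟨by omega, le_rfl, by omega, by omega, fun h => by omega⟩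
    · refine Or.inr ⟨3, D.h, hG.h, ?_⟩
      unfold cPt; simp only [Prod.mk.injEq, and_true]; omega
  have hx : x + sh p < D.w := by omega
  have hx2 : x + sh p < D.a y := by
    by_contra hc
    exact hP ⟨by omega, by omega, by omega, hx⟩
  by_cases c2 : x + sh p + 1 = D.a y
  · by_cases c3 : 1 ≤ y → D.a y ≤ D.a (y - 1)
    · by_cases c4 : y + 1 < D.h → D.a y ≤ D.a (y + 1)
      · refine Or.inl ⟨.L, by simp, ?_⟩
        exact ⟨by omega, by omega, c2, c3, c4⟩
      · push Not at c4
        have hg : y + 1 ∈ G := hG.drop_mem (by omega) (by omega) (by rw [add_sub_cancel_right]; omega)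
        refine Or.inr ⟨5, y + 1, hg, ?_⟩
        unfold cPt; simp only [Prod.mk.injEq, add_sub_cancel_right, and_true]; omega
    · push Not at c3
      have hg : y ∈ G := hG.drop_mem (by omega) (by omega) (by omega)
      refine Or.inr ⟨4, y, hg, ?_⟩
      unfold cPt; simp only [Prod.mk.injEq, and_true]; omega
  have hZ : Z ≠ y := by rintro rfl; omega
  rcases (by omega : Z = y + 1 ∨ Z = y - 1) with rfl | rfl
  · have hg : y + 1 ∈ G := hG.drop_mem (by omega) (by omega) (by rw [add_sub_cancel_right]; omega)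
    by_cases d1 : D.a (y + 1) ≤ x + sh p
    · refine Or.inl ⟨.F, by simp, ?_⟩
      exact ⟨by omega, by omega, d1, by omega, fun _ => by omega⟩
    · refine Or.inr ⟨0, y + 1, hg, ?_⟩
      unfold cPt; simp only [Prod.mk.injEq, add_sub_cancel_right, and_true]; omega
  · have hg : y ∈ G := hG.drop_mem (by omega) (by omega) (by omega)
    by_cases d1 : D.a (y - 1) ≤ x + sh p
    · refine Or.inl ⟨.C, by simp, ?_⟩
      exact ⟨by omega, by omega, d1, by omega, fun _ => by omega⟩
    · refine Or.inr ⟨1, y, hg, ?_⟩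
      unfold cPt; simp only [Prod.mk.injEq, and_true]; omega

/-- **Frozen tiles off the column are near the ends of the segments.** -/
theorem frz_cover (hcut : colp D (s0 - 1) ≠ colp D s0) (hG : Lev D G) (hF : Fat D n) (hl : Ldg D G n)
    (hn : 4 ≤ n) (h : FRt D p x y) (ho : OffR D p x y) :
    (∃ i : Fin 6, ∃ g ∈ G, ∃ k, 0 ≤ k ∧ k < 4 ∧ ((x, y) = lPt D p i g (e0 D p i g + k) ∨
      (x, y) = lPt D p i g (e1 D p G i g - k))) ∨ ∃ e : Fin 6, ∃ g ∈ G, (x, y) = cPt D p e g := by
  rcases ring_cover hG h.1 ho with ⟨s, hs, hL⟩ | h1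
  swap
  · exact Or.inr h1
  obtain ⟨i, g, t, h1, h2, h3, h4, h5⟩ := ly_cover hG (fun e => absurd e hs) hL
  have hxy : (x, y) = lPt D p i g t := by
    obtain ⟨k1, k2, k3, k4⟩ := h5
    unfold lPt
    rw [h2]
    cases s
    · rw [k1 rfl]; simp
    · rw [k2 rfl]
    · rw [k3 rfl]; simp
    · rw [k4 rfl]
  left
  by_cases c1 : e0 D p i g + 4 ≤ t
  · by_cases c2 : t + 4 ≤ e1 D p G i g
    · exfalso
      have hB := seg_box (p := p) (s0 := s0) (r := 4) hcut hG hF hl h1 hn c1 c2
      refine hB.noFR (x := x) (y := y) ?_ h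
      have e1 := congrArg Prod.fst hxy
      have e2 := congrArg Prod.snd hxy
      unfold lPt at e1 e2
      unfold Sq
      cases hk : sK i <;> rw [hk] at e1 e2 <;> simp only at e1 e2 <;> omega
    · exact ⟨i, g, h1.1, e1 D p G i g - t, by omega, by omega, Or.inr (by
        rw [show e1 D p G i g - (e1 D p G i g - t) = t by ring]; exact hxy)⟩
  · exact ⟨i, g, h1.1, t - e0 D p i g, by omega, by omega, Or.inl (by
      rw [show e0 D p i g + (t - e0 D p i g) = t by ring]; exact hxy)⟩

lemma mem_FRo : lt (x, y) ∈ FRo D p ↔ FRt D p x y ∧ OffR D p x y := by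
  unfold FRo
  rw [mem_TB]
  exact ⟨fun h => h.2, fun h => ⟨(Ring.inB h.1.1), h⟩⟩

/-- **The number of frozen tiles off the column.** -/
theorem card_FRo (hcut : colp D (s0 - 1) ≠ colp D s0) (hG : Lev D G) (hF : Fat D n) (hl : Ldg D G n)
    (hn : 4 ≤ n) : (FRo D p).card ≤ 54 * G.card := by
  classical
  set S : Finset (Fin 6 × ℤ × ℤ × Bool) := univ ×ˢ (G ×ˢ (Ico 0 4 ×ˢ univ)) with hS
  set F : Fin 6 × ℤ × ℤ × Bool → ℤ × ℤ := fun q => lt (lPt D p q.1 q.2.1
    (if q.2.2.2 = true then e0 D p q.1 q.2.1 + q.2.2.1 else e1 D p G q.1 q.2.1 - q.2.2.1)) with hF'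
  have h1 : FRo D p ⊆ S.image F ∪ ((univ : Finset (Fin 6)) ×ˢ G).image fun t => lt (cPt D p t.1 t.2) := by
    intro e he
    obtain ⟨x, y, rfl⟩ := Pool.Agent.H74.R45.exists_lt (odd_TB he)
    obtain ⟨h2, h3⟩ := mem_FRo.1 he
    rcases frz_cover hcut hG hF hl hn h2 h3 with ⟨i, g, hg, k, k0, k1, k2 | k2⟩ | ⟨e, g, hg, h4⟩
    · refine mem_union_left _ (mem_image.2 ⟨(i, g, k, true), ?_, by simp only [hF', if_true]; rw [← k2]⟩)
      exact mem_product.2 ⟨mem_univ _, mem_product.2 ⟨hg, mem_product.2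
        ⟨Finset.mem_Ico.2 ⟨k0, k1⟩, mem_univ _⟩⟩⟩
    · refine mem_union_left _ (mem_image.2 ⟨(i, g, k, false), ?_, by
        simp only [hF', Bool.false_eq_true, if_false]; rw [← k2]⟩)
      exact mem_product.2 ⟨mem_univ _, mem_product.2 ⟨hg, mem_product.2
        ⟨Finset.mem_Ico.2 ⟨k0, k1⟩, mem_univ _⟩⟩⟩
    · exact mem_union_right _ (mem_image.2 ⟨(e, g), mem_product.2 ⟨mem_univ _, hg⟩, by rw [← h4]⟩)
  refine (card_le_card h1).trans ((card_union_le _ _).trans ?_)
  have h2 : (S.image F).card ≤ 48 * G.card := by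
    refine card_image_le.trans (le_of_eq ?_)
    rw [hS, card_product, card_product, card_product, card_univ, Fintype.card_fin, Int.card_Ico,
      card_univ, Fintype.card_bool, sub_zero]
    have : (4 : ℤ).toNat = 4 := rfl
    rw [this]
    ring
  have h3 : (((univ : Finset (Fin 6)) ×ˢ G).image fun t => lt (cPt D p t.1 t.2)).card ≤ 6 * G.card := by
    refine card_image_le.trans (le_of_eq ?_)
    rw [card_product, card_univ, Fintype.card_fin]
  omega

/-- the frozen labels off the column are the same for the reference window -/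
theorem FRo_ref : FRo (refD D p) p = FRo D p := by
  ext e
  constructor
  · intro he
    obtain ⟨x, y, rfl⟩ := Pool.Agent.H74.R45.exists_lt (odd_TB he)
    obtain ⟨h1, h2⟩ := mem_FRo.1 he
    exact mem_FRo.2 ⟨(FRt_ref (D := D) h2).1 h1, h2⟩
  · intro he
    obtain ⟨x, y, rfl⟩ := Pool.Agent.H74.R45.exists_lt (odd_TB he)
    obtain ⟨h1, h2⟩ := mem_FRo.1 he
    exact mem_FRo.2 ⟨(FRt_ref h2).2 h1, h2⟩

/-- the frozen labels of the reference window: the column and those off the column -/
theorem mem_FR_ref : lt (x, y) ∈ FR (refD D p) p ↔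
    lt (x, y) ∈ FRo D p ∨ (x = D.w - sh p ∧ 0 ≤ y ∧ y < D.h) := by
  rw [← FRo_ref, mem_FRo]
  constructor
  · intro h
    have h1 : FRt (refD D p) p x y := (mem_TB.1 h).2
    by_cases c : OffR D p x y
    · exact Or.inl ⟨h1, c⟩
    · right
      unfold OffR at c
      obtain ⟨⟨Z, k1, k2, k3, k4, k5, k6⟩, -⟩ := h1.1
      rw [ref_w] at k6
      omega
  · rintro (⟨h1, -⟩ | ⟨rfl, h1, h2⟩)
    · exact mem_TB.2 ⟨h1.1.inB, h1⟩
    · have h3 := FRt_col (p := p) h1 h2
      exact mem_TB.2 ⟨h3.1.inB, h3⟩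

end Pool.Agent.H23.W
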